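import Pool.Agent.J6H60.FV.Stm
import Pool.Agent.W293.FV.OV

/-! Module FV2-OV2: overlap of two shifted Gaussians, sharp form. -/

set_option autoImplicit false

open MeasureTheory Filter Topology Set

namespace Pool.Agent.J6H50.FV.OV2

open Pool.Agent.W716.FV
open Pool.Agent.W293.FV.OV

theorem alg {y K P D g ρ : ℝ} (hP : 0 < P) (hD : D ^ 2 = P ^ 2 - 4 * g ^ 2) :
    0 ≤ y ^ 2 * P - K * y * D + K ^ 2 / 4 * ((1 + ρ ^ 2) * P - 4 * ρ * g) := by
  have h : P * (y ^ 2 * P - K * y * D + K ^ 2 / 4 * ((1 + ρ ^ 2) * P - 4 * ρ * g)) =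
      (y * P - K / 2 * D) ^ 2 + K ^ 2 / 4 * (2 * g - ρ * P) ^ 2 := by
    have : (y * P - K / 2 * D) ^ 2 = y ^ 2 * P ^ 2 - K * y * D * P + K ^ 2 / 4 * D ^ 2 := by ring
    rw [this, hD]; ring
  have h2 : 0 ≤ P * (y ^ 2 * P - K * y * D + K ^ 2 / 4 * ((1 + ρ ^ 2) * P - 4 * ρ * g)) := by
    rw [h]; positivity
  exact nonneg_of_mul_nonneg_right h2 hP

variable {n : ℕ}

theorem ptw (w d : E n) {g₁ g₂ : ℝ} (ρ s : ℝ) (hP : 0 < g₁ ^ 2 + g₂ ^ 2) :
    0 ≤ ‖w‖ ^ 2 * (g₁ ^ 2 + g₂ ^ 2) - (1 + s) * inner ℝ w d * (g₂ ^ 2 - g₁ ^ 2) +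
      ‖d‖ ^ 2 * (1 + s) ^ 2 / 4 * ((1 + ρ ^ 2) * (g₁ ^ 2 + g₂ ^ 2) - 4 * ρ * (g₁ * g₂)) := by
  have h := alg (y := ‖w‖) (K := |1 + s| * ‖d‖) (P := g₁ ^ 2 + g₂ ^ 2) (D := |g₂ ^ 2 - g₁ ^ 2|)
    (g := g₁ * g₂) (ρ := ρ) hP (by rw [sq_abs]; ring)
  have h1 : (1 + s) * inner ℝ w d * (g₂ ^ 2 - g₁ ^ 2) ≤
      |1 + s| * ‖d‖ * ‖w‖ * |g₂ ^ 2 - g₁ ^ 2| := by
    refine (le_abs_self _).trans ?_
    rw [abs_mul, abs_mul]
    refine mul_le_mul_of_nonneg_right ?_ (abs_nonneg _)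
    have := abs_real_inner_le_norm w d
    calc |1 + s| * |inner ℝ w d| ≤ |1 + s| * (‖w‖ * ‖d‖) :=
          mul_le_mul_of_nonneg_left this (abs_nonneg _)
      _ = _ := by ring
  have h2 : (|1 + s| * ‖d‖) ^ 2 / 4 = ‖d‖ ^ 2 * (1 + s) ^ 2 / 4 := by
    rw [mul_pow, sq_abs]; ring
  rw [h2] at h
  linarith

theorem gd_pos (x : E n) : 0 < gd n x := by
  unfold gd
  positivity

theorem main (hGM : GaussMoments) : Pool.Agent.J6H60.FV.Overlap2 := by
  intro n V K hV hK c₁ c₂ η₁ η₂ s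
  obtain ⟨gi, g1⟩ := gd_int (n := n) hGM
  have hgi : ∀ c : E n, Integrable (fun x => gd n (x - c)) := fun c => gi.comp_sub_right c
  have hg1 : ∀ c : E n, ∫ x, gd n (x - c) = 1 := fun c => by
    rw [integral_sub_right_eq_self (gd n) c, g1]
  set ρ := Real.exp (-‖c₂ - c₁‖ ^ 2 / 8) with hρ
  set d := η₂ - η₁ with hd
  set m := (1 / 2 : ℝ) • (η₁ + η₂) with hm
  have hrr : ∫ x, rr c₁ x * rr c₂ x = ρ := by
    simp only [rr_mul]
    rw [integral_mul_const, hg1, one_mul]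
  have hrri : Integrable (fun x => rr c₁ x * rr c₂ x) := by
    simp only [rr_mul]
    exact (hgi _).mul_const _
  have hρ2 : Real.exp (-‖c₂ - c₁‖ ^ 2 / 4) = ρ ^ 2 := by
    rw [hρ, ← Real.exp_nat_mul]
    congr 1
    push_cast
    ring
  have hVi : ∀ c : E n, Integrable (fun x => gd n (x - c) • V x) := by
    intro c
    refine ((hgi c).mul_const K).mono' ?_ (Eventually.of_forall fun x => ?_)
    · exact ((gd_cont.comp (continuous_id.sub continuous_const)).measurable.smul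
        hV).aestronglyMeasurable
    · rw [norm_smul, Real.norm_of_nonneg (gd_nonneg _)]
      exact mul_le_mul_of_nonneg_left (hK x) (gd_nonneg _)
  -- squares
  have hsq : ∀ c η : E n, Integrable (fun x => gd n (x - c) * ‖V x - η‖ ^ 2) := by
    intro c η
    refine ((hgi c).mul_const ((K + ‖η‖) ^ 2)).mono' ?_ (Eventually.of_forall fun x => ?_)
    · exact ((gd_cont.comp (continuous_id.sub continuous_const)).measurable.mul
        ((hV.sub_const η).norm.pow_const 2)).aestronglyMeasurable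
    · rw [Real.norm_of_nonneg (mul_nonneg (gd_nonneg _) (sq_nonneg _))]
      refine mul_le_mul_of_nonneg_left ?_ (gd_nonneg _)
      refine pow_le_pow_left₀ (norm_nonneg _) ?_ 2
      exact (norm_sub_le _ _).trans (by linarith [hK x])
  have hR : ∀ c η : E n, ∫ x, ‖V (x + c) - η‖ ^ 2 ∂(gam n) =
      ∫ x, gd n (x - c) * ‖V x - η‖ ^ 2 := by
    intro c η
    rw [int_shift (fun x => ‖V x - η‖ ^ 2) c]
    rfl
  -- the inner product
  have hin : ∀ c : E n, inner ℝ (∫ x, V (x + c) ∂(gam n)) d =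
      ∫ x, gd n (x - c) * inner ℝ (V x) d := by
    intro c
    rw [int_shift V c, real_inner_comm, ← integral_inner (hVi c)]
    refine integral_congr_ae (Eventually.of_forall fun x => ?_)
    simp only [real_inner_smul_right, real_inner_comm d (V x)]
  have hini : ∀ c : E n, Integrable (fun x => gd n (x - c) * inner ℝ (V x) d) := by
    intro c
    refine ((hgi c).mul_const (K * ‖d‖)).mono' ?_ (Eventually.of_forall fun x => ?_)
    · exact ((gd_cont.comp (continuous_id.sub continuous_const)).measurable.mul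
        (hV.inner_const)).aestronglyMeasurable
    · rw [norm_mul, Real.norm_of_nonneg (gd_nonneg _)]
      refine mul_le_mul_of_nonneg_left ?_ (gd_nonneg _)
      exact (norm_inner_le_norm _ _).trans (mul_le_mul_of_nonneg_right (hK x) (norm_nonneg _))
  rw [hR, hR, hρ2, inner_sub_left, hin, hin, ← integral_add (hsq c₁ η₁) (hsq c₂ η₂)]
  set L : E n → ℝ := fun x =>
    s * (gd n (x - c₂) * inner ℝ (V x) d - gd n (x - c₁) * inner ℝ (V x) d) -
      s * inner ℝ m d * (gd n (x - c₂) - gd n (x - c₁)) -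
      (‖d‖ ^ 2 * (1 + s) ^ 2 / 4 * ((1 + ρ ^ 2) * (gd n (x - c₁) + gd n (x - c₂)) -
        4 * ρ * (rr c₁ x * rr c₂ x))) + ‖d‖ ^ 2 / 4 * (gd n (x - c₁) + gd n (x - c₂)) with hL
  have hLi1 : Integrable (fun x => s * (gd n (x - c₂) * inner ℝ (V x) d -
      gd n (x - c₁) * inner ℝ (V x) d)) := ((hini c₂).sub (hini c₁)).const_mul s
  have hLi2 : Integrable (fun x => s * inner ℝ m d * (gd n (x - c₂) - gd n (x - c₁))) :=
    ((hgi c₂).sub (hgi c₁)).const_mul _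
  have hPi : Integrable (fun x => gd n (x - c₁) + gd n (x - c₂)) := (hgi c₁).add (hgi c₂)
  have hLi3 : Integrable (fun x => ‖d‖ ^ 2 * (1 + s) ^ 2 / 4 *
      ((1 + ρ ^ 2) * (gd n (x - c₁) + gd n (x - c₂)) - 4 * ρ * (rr c₁ x * rr c₂ x))) :=
    ((hPi.const_mul (1 + ρ ^ 2)).sub (hrri.const_mul (4 * ρ))).const_mul _
  have hLi4 : Integrable (fun x => ‖d‖ ^ 2 / 4 * (gd n (x - c₁) + gd n (x - c₂))) :=
    hPi.const_mul _
  have hLi : Integrable L := ((hLi1.sub hLi2).sub hLi3).add hLi4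
  have hLe : ∫ x, L x = ‖d‖ ^ 2 / 2 +
      s * ((∫ x, gd n (x - c₂) * inner ℝ (V x) d) - ∫ x, gd n (x - c₁) * inner ℝ (V x) d) -
      ‖d‖ ^ 2 * (1 + s) ^ 2 / 2 * (1 - ρ ^ 2) := by
    have e1 : ∫ x, s * (gd n (x - c₂) * inner ℝ (V x) d - gd n (x - c₁) * inner ℝ (V x) d) =
        s * ((∫ x, gd n (x - c₂) * inner ℝ (V x) d) - ∫ x, gd n (x - c₁) * inner ℝ (V x) d) := by
      rw [integral_const_mul, integral_sub (hini c₂) (hini c₁)]
    have e2 : ∫ x, s * inner ℝ m d * (gd n (x - c₂) - gd n (x - c₁)) = 0 := by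
      rw [integral_const_mul, integral_sub (hgi c₂) (hgi c₁), hg1, hg1]
      ring
    have eP : ∫ x, (gd n (x - c₁) + gd n (x - c₂)) = 2 := by
      rw [integral_add (hgi c₁) (hgi c₂), hg1, hg1]
      norm_num
    have e3 : ∫ x, ‖d‖ ^ 2 * (1 + s) ^ 2 / 4 *
        ((1 + ρ ^ 2) * (gd n (x - c₁) + gd n (x - c₂)) - 4 * ρ * (rr c₁ x * rr c₂ x)) =
        ‖d‖ ^ 2 * (1 + s) ^ 2 / 4 * ((1 + ρ ^ 2) * 2 - 4 * ρ * ρ) := by
      rw [integral_const_mul, integral_sub (hPi.const_mul (1 + ρ ^ 2)) (hrri.const_mul (4 * ρ)),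
        integral_const_mul, integral_const_mul, eP, hrr]
    have e4 : ∫ x, ‖d‖ ^ 2 / 4 * (gd n (x - c₁) + gd n (x - c₂)) = ‖d‖ ^ 2 / 4 * 2 := by
      rw [integral_const_mul, eP]
    have i12 : Integrable (fun x => s * (gd n (x - c₂) * inner ℝ (V x) d -
        gd n (x - c₁) * inner ℝ (V x) d) - s * inner ℝ m d * (gd n (x - c₂) - gd n (x - c₁))) :=
      hLi1.sub hLi2
    have i123 : Integrable (fun x => s * (gd n (x - c₂) * inner ℝ (V x) d -
        gd n (x - c₁) * inner ℝ (V x) d) - s * inner ℝ m d * (gd n (x - c₂) - gd n (x - c₁)) -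
        ‖d‖ ^ 2 * (1 + s) ^ 2 / 4 *
        ((1 + ρ ^ 2) * (gd n (x - c₁) + gd n (x - c₂)) - 4 * ρ * (rr c₁ x * rr c₂ x))) :=
      i12.sub hLi3
    rw [hL]
    rw [integral_add i123 hLi4, integral_sub i12 hLi3, integral_sub hLi1 hLi2, e1, e2, e3, e4]
    ring
  rw [← hLe]
  refine integral_mono hLi ((hsq c₁ η₁).add (hsq c₂ η₂)) fun x => ?_
  have hp := ptw (V x - m) d (g₁ := rr c₁ x) (g₂ := rr c₂ x) ρ s (by
    rw [rr_sq, rr_sq]
    exact add_pos (gd_pos _) (gd_pos _))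
  rw [rr_sq, rr_sq] at hp
  have e1 : V x - η₁ = (V x - m) + (1 / 2 : ℝ) • d := by
    rw [hm, hd, smul_add, smul_sub]
    have h5 : η₁ = (1 / 2 : ℝ) • η₁ + (1 / 2 : ℝ) • η₁ := by
      rw [← add_smul]
      norm_num
    nth_rewrite 1 [h5]
    abel
  have e2 : V x - η₂ = (V x - m) - (1 / 2 : ℝ) • d := by
    rw [hm, hd, smul_add, smul_sub]
    have h5 : η₂ = (1 / 2 : ℝ) • η₂ + (1 / 2 : ℝ) • η₂ := by
      rw [← add_smul]
      norm_num
    nth_rewrite 1 [h5]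
    abel
  have n1 : ‖V x - η₁‖ ^ 2 = ‖V x - m‖ ^ 2 + inner ℝ (V x - m) d + ‖d‖ ^ 2 / 4 := by
    rw [e1, norm_add_sq_real, inner_smul_right, norm_smul, mul_pow]
    norm_num
    ring
  have n2 : ‖V x - η₂‖ ^ 2 = ‖V x - m‖ ^ 2 - inner ℝ (V x - m) d + ‖d‖ ^ 2 / 4 := by
    rw [e2, norm_sub_sq_real, inner_smul_right, norm_smul, mul_pow]
    norm_num
    ring
  have n3 : inner ℝ (V x - m) d = inner ℝ (V x) d - inner ℝ m d := inner_sub_left _ _ _
  show L x ≤ gd n (x - c₁) * ‖V x - η₁‖ ^ 2 + gd n (x - c₂) * ‖V x - η₂‖ ^ 2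
  rw [hL, n1, n2]
  rw [n3] at hp ⊢
  simp only
  nlinarith [hp]

end Pool.Agent.J6H50.FV.OV2
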